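import Pool.Agent.L0h74.PW.Def

/-!
# Project PW, job ALGG: the elements which satisfy the local conditions
-/

set_option autoImplicit false
set_option linter.unusedSectionVars false

namespace Pool.Agent.L0h91.PW

open Pool.Agent.R384 Pool.Agent.L0h74.PW QuadraticAlgebra

section res

variable {q : OO}

lemma char_ne' (h : Pq q) : letI := fld h.prime; ringChar (FF q) ≠ 2 := by
  let _ := fld h.prime
  intro h2
  apply h.two
  have h1 : ((2 : ℕ) : FF q) = 0 := by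
    rw [← h2]
    exact CharP.cast_eq_zero _ _
  rw [← mk_eq_zero]
  rw [map_ofNat]
  exact_mod_cast h1

lemma qsm (h : Pq q) {x y : OO} (hx : ¬ q ∣ x) (hy : ¬ q ∣ y) :
    qs q (x * y) = qs q x + qs q y := by
  classical
  let _ := fld h.prime
  let _ := ftp h.prime
  have h0x : (Ideal.Quotient.mk (Ideal.span {q}) x) ≠ 0 := fun h => hx ((mk_eq_zero q x).1 h)
  have h0y : (Ideal.Quotient.mk (Ideal.span {q}) y) ≠ 0 := fun h => hy ((mk_eq_zero q y).1 h)
  have hc := char_ne' h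
  have hxy : (Ideal.Quotient.mk (Ideal.span {q}) (x * y)) ≠ 0 := by
    rw [map_mul]
    exact mul_ne_zero h0x h0y
  have key : ∀ z : OO, (Ideal.Quotient.mk (Ideal.span {q}) z) ≠ 0 →
      (qs q z = 0 ↔ quadraticChar (FF q) (Ideal.Quotient.mk (Ideal.span {q}) z) = 1) := by
    intro z hz
    rw [qs_zero, sqm_iff, quadraticChar_one_iff_isSquare hz]
  have kx := key x h0x
  have ky := key y h0y
  have kxy := key _ hxy
  rw [map_mul, map_mul] at kxy
  have dx := quadraticChar_dichotomy h0x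
  have dy := quadraticChar_dichotomy h0y
  have h01 : ∀ a : ZMod 2, a = 0 ∨ a = 1 := by decide
  rcases dx with dx | dx <;> rcases dy with dy | dy <;> rw [dx] at kx kxy <;> rw [dy] at ky kxy <;>
    rcases h01 (qs q x) with e1 | e1 <;> rcases h01 (qs q y) with e2 | e2 <;>
    rcases h01 (qs q (x * y)) with e3 | e3 <;> rw [e1] at kx ⊢ <;> rw [e2] at ky ⊢ <;>
    rw [e3] at kxy ⊢ <;> revert kx ky kxy <;> decide

lemma qsm_sq (h : Pq q) {x y : OO} (hy : ¬ q ∣ y) : qs q (x * y ^ 2) = qs q x := by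
  by_cases hx : q ∣ x
  · rw [qs_zero.2 ⟨0, by simpa using Dvd.dvd.mul_right hx _⟩, qs_zero.2 ⟨0, by simpa using hx⟩]
  · have hy2 : ¬ q ∣ y ^ 2 := fun h' => hy (h.prime.dvd_of_dvd_pow h')
    rw [qsm h hx hy2, qs_sq, add_zero]

lemma qsm_prod (h : Pq q) {ι : Type*} (S : Finset ι) (f : ι → OO) (hf : ∀ i ∈ S, ¬ q ∣ f i) :
    qs q (∏ i ∈ S, f i) = ∑ i ∈ S, qs q (f i) := by
  classical
  induction S using Finset.induction_on with
  | empty =>
    rw [Finset.prod_empty, Finset.sum_empty]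
    exact qs_one
  | insert i S hi ih =>
    rw [Finset.prod_insert hi, Finset.sum_insert hi, qsm h, ih]
    · exact fun j hj => hf j (Finset.mem_insert_of_mem hj)
    · exact hf i (Finset.mem_insert_self _ _)
    · intro h1
      obtain ⟨j, hj, h2⟩ := (h.prime.dvd_finsetProd_iff _).1 h1
      exact hf j (Finset.mem_insert_of_mem hj) h2

lemma not_unit_dvd (h : Pq q) {u : OO} (hu : IsUnit u) : ¬ q ∣ u :=
  fun h1 => h.prime.not_isUnit (isUnit_of_dvd_unit h1 hu)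

lemma s7_not' (h : Pq q) : ¬ s7 ∣ q := by
  intro h1
  exact h.n7 ((prime_s7.dvd_prime_iff_associated h.prime).1 h1).symm.dvd

end res

section alg

variable {n : ℕ} {q : Fin n → OO}

/-- decomposition -/
lemma decomp' (hq : ∀ i, Pq (q i)) (hnd : ∀ i j, i ≠ j → ¬ q i ∣ q j) {ϖ δ : OO}
    (hϖ : ϖ = om ∨ ϖ = 1 - om) (hδ : Squarefree δ)
    (hsup : ∀ π, Prime π → π ∣ δ → π ∣ ϖ ∨ ∃ i, π ∣ q i) :
    ∃ (u : OO) (a : ℕ) (S : Finset (Fin n)), (u = 1 ∨ u = -1) ∧ (a = 0 ∨ a = 1) ∧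
      (∀ i, i ∈ S ↔ q i ∣ δ) ∧ δ = u * ϖ ^ a * ∏ i ∈ S, q i := by
  classical
  have hϖp : Prime ϖ := by
    rcases hϖ with rfl | rfl
    · exact prime_om
    · exact prime_om'
  set S : Finset (Fin n) := Finset.univ.filter fun i => q i ∣ δ with hS
  have hmem : ∀ i, i ∈ S ↔ q i ∣ δ := fun i => by simp [hS]
  have hP : ∏ i ∈ S, q i ∣ δ := by
    apply Finset.prod_dvd_of_coprime
    · intro i _ k _ hik
      exact ((hq i).prime.irreducible.coprime_iff_not_dvd).2 (hnd i k hik)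
    · intro i hi
      exact (hmem i).1 hi
  obtain ⟨δ2, h2⟩ := hP
  have hδ20 : δ2 ≠ 0 := by
    rintro rfl
    rw [mul_zero] at h2
    exact hδ.ne_zero h2
  have hno : ∀ i, ¬ q i ∣ δ2 := by
    rintro i ⟨t, ht⟩
    have hi : i ∈ S := (hmem i).2 (by rw [h2, ht]; exact ⟨(∏ i ∈ S, q i) * t, by ring⟩)
    obtain ⟨v, hv⟩ := Finset.dvd_prod_of_mem q hi
    apply (hq i).prime.not_isUnit
    apply hδ (q i)
    rw [h2, ht, hv]
    exact ⟨v * t, by ring⟩
  have hunit : ∀ y : OO, y ∣ δ2 → ¬ ϖ ∣ y → IsUnit y := by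
    intro y hy hyϖ
    by_contra hcon
    have hy0 : y ≠ 0 := by
      rintro rfl
      exact hδ20 (zero_dvd_iff.1 hy)
    obtain ⟨π, hπ, hπy⟩ := WfDvdMonoid.exists_irreducible_factor hcon hy0
    have hπp := hπ.prime
    rcases hsup π hπp (hπy.trans (hy.trans (by rw [h2]; exact Dvd.intro_left _ rfl))) with h3 | ⟨i, h3⟩
    · exact hyϖ (((hπp.dvd_prime_iff_associated hϖp).1 h3).symm.dvd.trans hπy)
    · exact hno i ((((hπp.dvd_prime_iff_associated (hq i).prime).1 h3).symm.dvd.trans hπy).trans hy)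
  by_cases hϖ2 : ϖ ∣ δ2
  · obtain ⟨u, hu⟩ := hϖ2
    have hu1 : ¬ ϖ ∣ u := by
      rintro ⟨t, ht⟩
      apply hϖp.not_isUnit
      apply hδ ϖ
      rw [h2, hu, ht]
      exact ⟨(∏ i ∈ S, q i) * t, by ring⟩
    have hu2 := unit_cases (hunit u (by rw [hu]; exact Dvd.intro_left _ rfl) hu1)
    exact ⟨u, 1, S, hu2, Or.inr rfl, hmem, by rw [h2, hu]; ring⟩
  · have hu2 := unit_cases (hunit δ2 (dvd_refl _) hϖ2)
    exact ⟨δ2, 0, S, hu2, Or.inl rfl, hmem, by rw [h2]; ring⟩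

lemma nd_prod' (hq : ∀ i, Pq (q i)) (hnd : ∀ i j, i ≠ j → ¬ q i ∣ q j) {i : Fin n}
    {S : Finset (Fin n)} (h : i ∉ S) : ¬ q i ∣ ∏ k ∈ S, q k := by
  intro h1
  obtain ⟨j, hj, h2⟩ := ((hq i).prime.dvd_finsetProd_iff _).1 h1
  exact hnd i j (fun h3 : i = j => h (by rw [h3]; exact hj)) h2

/-- the linear algebra -/
lemma linG {ϖ' v : OO} {w4 : ZMod 4} {hw4 : w4 ^ 2 = w4 - 2} (hF : Fm hw4 ϖ' v q)
    {a : ZMod 2} {T : Finset (Fin n)}
    (h1 : ∀ i, i ∉ T → a * (qs (q i) ϖ' + qs (q i) (-1)) + ∑ k ∈ T, qs (q i) (q k) = 0)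
    (h2 : ∀ i, i ∈ T → a * (qs (q i) ϖ' + qs (q i) (-1)) + qs (q i) (v * s7) +
      ∑ k ∈ Tᶜ, qs (q i) (q k) = 0)
    (hv7 : ∀ i, ¬ q i ∣ v * s7)
    (h3 : a + ∑ i ∈ T, qs s7 (q i) = 0) : a = 0 ∧ T = ∅ := by
  classical
  have h5 : ∀ x : ZMod 2, x + x = 0 := by decide
  have ha0 : a = 0 := by
    have g1 : ∑ i ∈ T, (a * (qs (q i) ϖ' + qs (q i) (-1)) + qs (q i) (v * s7) +
        ∑ k ∈ Tᶜ, qs (q i) (q k)) = 0 := Finset.sum_eq_zero fun i hi => h2 i hi
    have g2 : ∑ i ∈ Tᶜ, (a * (qs (q i) ϖ' + qs (q i) (-1)) + ∑ k ∈ T, qs (q i) (q k)) = 0 :=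
      Finset.sum_eq_zero fun i hi => h1 i (by simpa using hi)
    rw [Finset.sum_add_distrib, Finset.sum_add_distrib, ← Finset.mul_sum,
      Finset.sum_add_distrib] at g1
    rw [Finset.sum_add_distrib, ← Finset.mul_sum, Finset.sum_add_distrib] at g2
    have g3 : ∑ i ∈ Tᶜ, ∑ k ∈ T, qs (q i) (q k) = ∑ i ∈ T, ∑ k ∈ Tᶜ, qs (q i) (q k) +
        (∑ i ∈ T, qs (q i) (-1)) * (∑ i ∈ Tᶜ, qs (q i) (-1)) := by
      rw [Finset.sum_comm, Finset.sum_mul_sum, ← Finset.sum_add_distrib]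
      apply Finset.sum_congr rfl
      intro i hi
      rw [← Finset.sum_add_distrib]
      apply Finset.sum_congr rfl
      intro k hk
      have hik : i ≠ k := by
        rintro rfl
        rw [Finset.mem_compl] at hk
        exact hk hi
      rw [← hF.recp i k hik]
      linear_combination -h5 (qs (q i) (q k))
    rw [g3] at g2
    have g4 : ∑ i ∈ T, qs s7 (q i) = ∑ i ∈ T, qs (q i) (v * s7) + ∑ i ∈ T, qs (q i) (-1) := by
      rw [← Finset.sum_add_distrib]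
      apply Finset.sum_congr rfl
      intro i _
      have e : -(v * s7) = (-1) * (v * s7) := by ring
      rw [hF.rec7 i, e, qsm (hF.pr i) (not_unit_dvd (hF.pr i) isUnit_one.neg) (hv7 i), add_comm]
    have e1 := hF.sum1
    have e2 := hF.sumw
    rw [← Finset.sum_add_sum_compl T] at e1 e2
    have h6 : ∀ x : ZMod 2, x * x = x := by decide
    have e3 : (∑ i ∈ T, qs (q i) (-1)) * (∑ i ∈ Tᶜ, qs (q i) (-1)) = ∑ i ∈ T, qs (q i) (-1) := by
      have e4 : ∑ i ∈ Tᶜ, qs (q i) (-1) = ∑ i ∈ T, qs (q i) (-1) := by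
        linear_combination e1 - h5 (∑ i ∈ T, qs (q i) (-1))
      rw [e4, h6]
    rw [e3] at g2
    rw [g4] at h3
    linear_combination h3 - g1 - g2 + a * e2 + a * e1 + h5 (∑ i ∈ T, ∑ k ∈ Tᶜ, qs (q i) (q k))
  refine ⟨ha0, hF.ker T (fun i hi => ?_) fun i hi => ?_⟩
  · have := h1 i hi
    rwa [ha0, zero_mul, zero_add] at this
  · have := h2 i hi
    rwa [ha0, zero_mul, zero_add] at this

theorem t_ALGG : S_ALGG := by
  classical
  intro n q ϖ ϖ₁ v w4 hw4 hcs hF m' δ hm' hδ4 hδ hsup hloc hloc7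
  have hq := hF.pr
  have hnd := hF.nd
  have hv : v = 1 ∨ v = -1 := by
    rcases hcs with h | h
    · exact Or.inr h.2.2.1
    · exact Or.inl h.2.2.1
  have hv2 : v * v = 1 := by rcases hv with h | h <;> rw [h] <;> ring
  have hϖc : ϖ₁ = om ∨ ϖ₁ = 1 - om := by
    rcases hcs with h | h
    · exact Or.inr h.2.1
    · exact Or.inl h.2.1
  have hϖp : Prime ϖ₁ := by
    rcases hϖc with h | h
    · rw [h]; exact prime_om
    · rw [h]; exact prime_om'
  have hs70 : s7 ≠ 0 := prime_s7.ne_zero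
  have hϖ7 : ¬ s7 ∣ ϖ₁ := by
    intro h
    obtain ⟨t, ht⟩ := (prime_s7.dvd_prime_iff_associated hϖp).1 h
    have h1 := congrArg nn ht
    rw [nn_mul, nn_s7, unit_iff.1 t.isUnit] at h1
    rcases hϖc with h2 | h2
    · rw [h2] at h1
      simp [nn, om] at h1
    · rw [h2] at h1
      simp [nn, om] at h1
  have hϖ7s : qs s7 ϖ₁ = 0 := by
    rcases hϖc with h | h
    · rw [h]; exact qs7_om
    · rw [h]; exact qs7_om'
  -- the part prime to `√-7`
  obtain ⟨f, δ', hf, hδf, hδ7⟩ : ∃ (f : ℕ) (δ' : OO), (f = 0 ∨ f = 1) ∧ δ = s7 ^ f * δ' ∧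
      ¬ s7 ∣ δ' := by
    by_cases h : s7 ∣ δ
    · obtain ⟨δ', h'⟩ := h
      refine ⟨1, δ', Or.inr rfl, by rw [h', pow_one], ?_⟩
      rintro ⟨t, ht⟩
      apply prime_s7.not_isUnit
      apply hδ s7
      rw [h', ht]
      exact ⟨t, by ring⟩
    · exact ⟨0, δ, Or.inl rfl, by rw [pow_zero, one_mul], h⟩
  have hδ' : Squarefree δ' := hδ.squarefree_of_dvd (by rw [hδf]; exact Dvd.intro_left _ rfl)
  have hδd : δ' ∣ δ := by rw [hδf]; exact Dvd.intro_left _ rfl
  obtain ⟨u, a, S, hu, ha, hS, hδe⟩ := decomp' hq hnd hϖc hδ' (by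
    intro π hπ hπδ
    rcases hsup π hπ (hπδ.trans hδd) with h | h | h
    · exact Or.inl h
    · exfalso
      exact hδ7 (((hπ.dvd_prime_iff_associated prime_s7).1 h).symm.dvd.trans hπδ)
    · exact Or.inr h)
  have hS' : ∀ i, i ∈ S ↔ q i ∣ δ := by
    intro i
    rw [hS, hδf]
    constructor
    · exact fun h => Dvd.dvd.mul_left h _
    · intro h
      rcases (hq i).prime.dvd_or_dvd h with h1 | h1
      · exact absurd ((hq i).prime.dvd_of_dvd_pow h1) (hq i).n7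
      · exact h1
  have hϖ2 : ∀ i, ¬ q i ∣ ϖ₁ := by
    intro i h
    apply (hq i).two
    rcases hϖc with h1 | h1
    · rw [h1] at h
      rw [← om_mul]
      exact Dvd.dvd.mul_right h _
    · rw [h1] at h
      rw [← om_mul]
      exact Dvd.dvd.mul_left h _
  have hϖa : ∀ i, ¬ q i ∣ ϖ₁ ^ a ∧ qs (q i) (ϖ₁ ^ a) = a * qs (q i) ϖ₁ := by
    intro i
    rcases ha with h | h
    · rw [h]
      refine ⟨fun h => (hq i).prime.not_isUnit (isUnit_of_dvd_one (by simpa using h)), ?_⟩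
      rw [pow_zero, qs_one]; simp
    · rw [h, pow_one]
      exact ⟨hϖ2 i, by simp⟩
  have hv7 : ∀ i, ¬ q i ∣ v * s7 := by
    intro i h
    rcases (hq i).prime.dvd_or_dvd h with h1 | h1
    · refine not_unit_dvd (hq i) ?_ h1
      rcases hv with h2 | h2 <;> rw [h2]
      · exact isUnit_one
      · exact isUnit_one.neg
    · exact (hq i).n7 h1
  -- the unit `U = (-1) ^ a`
  have hq4 : ∀ T : Finset (Fin n), em hw4 (∏ i ∈ T, q i) = 1 := by
    intro T
    rw [map_prod]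
    exact Finset.prod_eq_one fun i _ => hF.four i
  have hϖ4 : em hw4 ϖ₁ = -1 := by
    rcases hcs with ⟨-, h1, -, h2⟩ | ⟨-, h1, -, h2⟩
    · subst h1 h2
      rw [map_sub, map_one, em_apply]
      simp only [om]
      decide
    · subst h1 h2
      rw [em_apply]
      simp only [om]
      decide
  have hs74 : em hw4 s7 = em hw4 v := by
    rcases hcs with ⟨-, -, h1, h2⟩ | ⟨-, -, h1, h2⟩
    · subst h1 h2
      rw [map_neg, map_one, em_apply]
      simp only [s7]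
      decide
    · subst h1 h2
      rw [map_one, em_apply]
      simp only [s7]
      decide
  have hcase : ∀ {U : OO}, (U = 1 ∨ U = -1) → em hw4 U * (-1) ^ a = 1 →
      (U = 1 ∧ a = 0) ∨ (U = -1 ∧ a = 1) := by
    intro U hU h
    have hne : ((-1 : ZMod 4)) ≠ 1 := by decide
    rcases hU with h1 | h1 <;> rcases ha with h2 | h2
    · exact Or.inl ⟨h1, h2⟩
    · exfalso
      rw [h1, h2, map_one, one_mul, pow_one] at h
      exact hne h
    · exfalso
      rw [h1, h2, map_neg, map_one, pow_zero, mul_one] at h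
      exact hne h
    · exact Or.inr ⟨h1, h2⟩
  have hqU : ∀ {U : OO}, ((U = 1 ∧ a = 0) ∨ (U = -1 ∧ a = 1)) → ∀ i, ¬ q i ∣ U ∧
      qs (q i) U = a * qs (q i) (-1) := by
    intro U h i
    rcases h with ⟨h1, h2⟩ | ⟨h1, h2⟩ <;> rw [h1, h2]
    · refine ⟨not_unit_dvd (hq i) isUnit_one, ?_⟩
      rw [qs_one]
      simp
    · refine ⟨not_unit_dvd (hq i) isUnit_one.neg, ?_⟩
      simp
  have hqsU : ∀ {U : OO}, ((U = 1 ∧ a = 0) ∨ (U = -1 ∧ a = 1)) → qs s7 U = (a : ZMod 2) ∧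
      ¬ s7 ∣ U := by
    intro U h
    rcases h with ⟨h1, h⟩ | ⟨h1, h⟩ <;> rw [h1, h]
    · refine ⟨?_, fun h => prime_s7.not_isUnit (isUnit_of_dvd_one h)⟩
      rw [qs_zero.2 ⟨1, by simp⟩]
      simp
    · rw [qs7_neg_one]
      refine ⟨by simp, fun h => prime_s7.not_isUnit (isUnit_of_dvd_one ((dvd_neg).1 h))⟩
  have hϖa7 : ¬ s7 ∣ ϖ₁ ^ a ∧ qs s7 (ϖ₁ ^ a) = 0 := by
    refine ⟨fun h => hϖ7 (prime_s7.dvd_of_dvd_pow h), ?_⟩
    rcases ha with h | h
    · rw [h, pow_zero]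
      exact qs_zero.2 ⟨1, by simp⟩
    · rw [h, pow_one]
      exact hϖ7s
  have h7prod : ∀ T : Finset (Fin n), ¬ s7 ∣ ∏ k ∈ T, q k := by
    intro T h
    obtain ⟨j, -, h2⟩ := (prime_s7.dvd_finsetProd_iff _).1 h
    exact s7_not' (hq j) h2
  have hval : ∀ {U : OO} (T : Finset (Fin n)), ((U = 1 ∧ a = 0) ∨ (U = -1 ∧ a = 1)) →
      Sqm s7 (U * ϖ₁ ^ a * ∏ k ∈ T, q k) → (a : ZMod 2) + ∑ i ∈ T, qs s7 (q i) = 0 := by
    intro U T hU h
    obtain ⟨h1, h2⟩ := hqsU hU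
    rw [← qs_zero, qs7_mul (fun h => (prime_s7.dvd_or_dvd h).elim h2 hϖa7.1) (h7prod T),
      qs7_mul h2 hϖa7.1, h1, hϖa7.2, add_zero, qs7_prod T q (fun i _ => s7_not' (hq i))] at h
    exact h
  -- the symbols: without and with `v √-7`
  have hU1 : ∀ {U : OO} (T : Finset (Fin n)), ((U = 1 ∧ a = 0) ∨ (U = -1 ∧ a = 1)) →
      ∀ i, i ∉ T → Sqm (q i) (U * ϖ₁ ^ a * ∏ k ∈ T, q k) →
      (a : ZMod 2) * (qs (q i) ϖ₁ + qs (q i) (-1)) + ∑ k ∈ T, qs (q i) (q k) = 0 := by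
    intro U T hU i hi h
    obtain ⟨h1, h2⟩ := hqU hU i
    have n1 := nd_prod' hq hnd hi
    have n2 : ¬ q i ∣ U * ϖ₁ ^ a := fun h => ((hq i).prime.dvd_or_dvd h).elim h1 (hϖa i).1
    rw [← qs_zero, qsm (hq i) n2 n1, qsm (hq i) h1 (hϖa i).1, h2, (hϖa i).2,
      qsm_prod (hq i) _ _ (fun k hk => hnd i k (fun h => hi (h ▸ hk)))] at h
    linear_combination h
  have hU2 : ∀ {U : OO} (T : Finset (Fin n)), ((U = 1 ∧ a = 0) ∨ (U = -1 ∧ a = 1)) →
      ∀ i, i ∉ T → Sqm (q i) (v * s7 * (U * ϖ₁ ^ a * ∏ k ∈ T, q k)) →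
      (a : ZMod 2) * (qs (q i) ϖ₁ + qs (q i) (-1)) + qs (q i) (v * s7) +
        ∑ k ∈ T, qs (q i) (q k) = 0 := by
    intro U T hU i hi h
    obtain ⟨h1, h2⟩ := hqU hU i
    have n1 := nd_prod' hq hnd hi
    have n2 : ¬ q i ∣ U * ϖ₁ ^ a := fun h => ((hq i).prime.dvd_or_dvd h).elim h1 (hϖa i).1
    have n3 : ¬ q i ∣ U * ϖ₁ ^ a * ∏ k ∈ T, q k := fun h =>
      ((hq i).prime.dvd_or_dvd h).elim n2 n1
    rw [← qs_zero, qsm (hq i) (hv7 i) n3, qsm (hq i) n2 n1, qsm (hq i) h1 (hϖa i).1, h2,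
      (hϖa i).2, qsm_prod (hq i) _ _ (fun k hk => hnd i k (fun h => hi (h ▸ hk)))] at h
    linear_combination h
  rcases hf with hf | hf
  · -- `√-7` does not divide `δ`
    subst hf
    rw [pow_zero, one_mul] at hδf
    have hδs : em hw4 u * (-1) ^ a = 1 := by
      rw [hδf, hδe, map_mul, map_mul, map_pow, hϖ4, hq4, mul_one] at hδ4
      exact hδ4
    have hU := hcase hu hδs
    have h7 : Sqm s7 δ := by
      rcases hloc7 with ⟨-, h⟩ | ⟨δ1, m1, h, -⟩
      · exact h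
      · exfalso
        exact hδ7 ⟨δ1, by rw [← hδf, h]⟩
    rw [hδf, hδe] at h7
    obtain ⟨g1, g2⟩ := linG hF (a := (a : ZMod 2)) (T := S)
      (fun i hi => by
        rcases hloc i with ⟨-, h1⟩ | ⟨δ1, m1, h1, -⟩
        · rw [hδf, hδe] at h1
          exact hU1 S hU i hi h1
        · exact absurd ((hS' i).2 ⟨δ1, h1⟩) hi)
      (fun i hi => by
        rcases hloc i with ⟨h1, -⟩ | ⟨δ1, m1, h1, h2, h3⟩
        · exact absurd ((hS' i).1 hi) h1
        · have hq0 := (hq i).prime.ne_zero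
          have e1 : δ1 = u * ϖ₁ ^ a * ∏ k ∈ S.erase i, q k := by
            apply mul_left_cancel₀ hq0
            rw [← h1, hδf, hδe, ← Finset.mul_prod_erase S q hi]
            ring
          have e2 : m1 = v * (s7 * ((∏ k ∈ S.erase i, q k) * ∏ k ∈ Sᶜ, q k)) := by
            apply mul_left_cancel₀ hq0
            rw [← h2, hm', ← Finset.prod_mul_prod_compl S q, ← Finset.mul_prod_erase S q hi]
            ring
          have e3 : δ1 * m1 = (v * s7 * (u * ϖ₁ ^ a * ∏ k ∈ Sᶜ, q k)) *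
              (∏ k ∈ S.erase i, q k) ^ 2 := by
            rw [e1, e2]
            ring
          rw [e3, ← qs_zero, qsm_sq (hq i) (nd_prod' hq hnd (Finset.notMem_erase i S)),
            qs_zero] at h3
          exact hU2 Sᶜ hU i (by simpa using hi) h3) hv7 (hval S hU h7)
    left
    rcases hU with ⟨h1, h2⟩ | ⟨h1, h2⟩
    · rw [hδf, hδe, h1, h2, g2, Finset.prod_empty, pow_zero, mul_one, mul_one]
    · rw [h2] at g1
      exact absurd g1 (by decide)
  · -- `√-7` divides `δ`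
    subst hf
    rw [pow_one] at hδf
    have huv : u * v = 1 ∨ u * v = -1 := by
      rcases hu with h | h <;> rcases hv with h' | h' <;> rw [h, h'] <;> simp
    have hδs : em hw4 (u * v) * (-1) ^ a = 1 := by
      rw [hδf, hδe, map_mul, map_mul, map_mul, map_pow, hϖ4, hq4, mul_one, hs74] at hδ4
      rw [map_mul]
      linear_combination hδ4
    have hU := hcase huv hδs
    have h7 : Sqm s7 (u * v * ϖ₁ ^ a * ∏ k ∈ Sᶜ, q k) := by
      rcases hloc7 with ⟨h, -⟩ | ⟨δ1, m1, h1, h2, h3⟩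
      · exact absurd ⟨δ', hδf⟩ h
      · have e1 : δ1 = u * ϖ₁ ^ a * ∏ k ∈ S, q k := by
          apply mul_left_cancel₀ hs70
          rw [← h1, hδf, hδe]
        have e2 : m1 = v * ((∏ k ∈ S, q k) * ∏ k ∈ Sᶜ, q k) := by
          apply mul_left_cancel₀ hs70
          rw [← h2, hm', ← Finset.prod_mul_prod_compl S q]
          ring
        have e3 : δ1 * m1 = (u * v * ϖ₁ ^ a * ∏ k ∈ Sᶜ, q k) * (∏ k ∈ S, q k) ^ 2 := by
          rw [e1, e2]
          ring
        obtain ⟨-, n2⟩ := hqsU hU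
        rw [e3, ← qs_zero, qs7_mul_sq (fun h => (prime_s7.dvd_or_dvd h).elim
          (fun h => (prime_s7.dvd_or_dvd h).elim n2 hϖa7.1) (h7prod _)) (h7prod S), qs_zero] at h3
        exact h3
    obtain ⟨g1, g2⟩ := linG hF (a := (a : ZMod 2)) (T := Sᶜ)
      (fun i hi => by
        have hi : i ∈ S := by simpa using hi
        rcases hloc i with ⟨h1, -⟩ | ⟨δ1, m1, h1, h2, h3⟩
        · exact absurd ((hS' i).1 hi) h1
        · have hq0 := (hq i).prime.ne_zero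
          have e1 : δ1 = s7 * (u * ϖ₁ ^ a * ∏ k ∈ S.erase i, q k) := by
            apply mul_left_cancel₀ hq0
            rw [← h1, hδf, hδe, ← Finset.mul_prod_erase S q hi]
            ring
          have e2 : m1 = v * (s7 * ((∏ k ∈ S.erase i, q k) * ∏ k ∈ Sᶜ, q k)) := by
            apply mul_left_cancel₀ hq0
            rw [← h2, hm', ← Finset.prod_mul_prod_compl S q, ← Finset.mul_prod_erase S q hi]
            ring
          have e3 : δ1 * m1 = (u * v * ϖ₁ ^ a * ∏ k ∈ Sᶜ, q k) *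
              (s7 * ∏ k ∈ S.erase i, q k) ^ 2 := by
            rw [e1, e2]
            ring
          rw [e3, ← qs_zero, qsm_sq (hq i) (fun h => ((hq i).prime.dvd_or_dvd h).elim (hq i).n7
            (nd_prod' hq hnd (Finset.notMem_erase i S))), qs_zero] at h3
          exact hU1 Sᶜ hU i (by simpa using hi) h3)
      (fun i hi => by
        have hi : i ∉ S := by simpa using hi
        rcases hloc i with ⟨-, h1⟩ | ⟨δ1, m1, h1, -⟩
        · have e : δ = v * s7 * (u * v * ϖ₁ ^ a * ∏ k ∈ S, q k) := by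
            rw [hδf, hδe]
            linear_combination (-(s7 * (u * ϖ₁ ^ a * ∏ k ∈ S, q k))) * hv2
          rw [e] at h1
          have := hU2 S hU i hi h1
          rwa [compl_compl]
        · exact absurd ((hS' i).2 ⟨δ1, h1⟩) hi) hv7 (hval Sᶜ hU h7)
    right
    have hSu : S = Finset.univ := by
      rwa [Finset.compl_eq_empty_iff] at g2
    rcases hU with ⟨h1, h2⟩ | ⟨h1, h2⟩
    · rw [hδf, hδe, h2, hSu, hm', pow_zero, mul_one]
      have huv' : u = v := by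
        calc u = u * v * v := by rw [mul_assoc, hv2, mul_one]
          _ = v := by rw [h1, one_mul]
      rw [huv']
      ring
    · rw [h2] at g1
      exact absurd g1 (by decide)

end alg

end Pool.Agent.L0h91.PW
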