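import Pool.Agent.L0h74.PW.Stm

/-!
# Project PW, job SW: the sum of the symbols of the other prime above two
-/

set_option autoImplicit false
set_option linter.unusedSectionVars false

open scoped NumberTheorySymbols

namespace Pool.Agent.L0h91.PW

open Pool.Agent.L0h74.PW Pool.Agent.L0h4.TW
open Pool.Agent.Y698 Pool.Agent.Y698.SG
open H667R3 Pool.Agent.W192.HK Pool.Agent.TH936.CM Pool.Agent.TH936.PU

lemma nR_one_sub : nR (1 - aR) = 2 := by
  have h1 : (1 - aR : RR) = cj aR := by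
    unfold cj
    rw [ev_aR]
  rw [h1, Pool.Agent.L0h4.TW.nR_cj]
  unfold nR
  rw [cXY_aR.1, cXY_aR.2]
  norm_num

lemma jac_two_pm {n : ℕ} (h : n % 2 = 1) : J(2 | n) = 1 ∨ J(2 | n) = -1 := by
  rw [jacobiSym.at_two (Nat.odd_iff.2 h), ZMod.χ₈_nat_eq_if_mod_eight, if_neg (by omega)]
  split_ifs
  · exact Or.inl rfl
  · exact Or.inr rfl

lemma qch_two_pm {n : ℕ} (h : n % 2 = 1) : qch n 2 = 1 ∨ qch n 2 = -1 := by
  unfold qch
  rcases jac_two_pm h with h1 | h1 <;> rw [h1] <;> norm_num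

lemma sum_qch (s : Finset ℕ) (hs : ∀ q ∈ s, q % 2 = 1) :
    (∏ q ∈ s, q) % 2 = 1 ∧ ∑ q ∈ s, lg (qch q 2) = lg (qch (∏ q ∈ s, q) 2) := by
  classical
  induction s using Finset.induction_on with
  | empty =>
    rw [Finset.prod_empty, Finset.sum_empty]
    refine ⟨rfl, ?_⟩
    unfold qch
    rw [jacobiSym.one_right, Int.cast_one, lg_one]
  | insert q s hq ih =>
    obtain ⟨h1, h2⟩ := ih fun r hr => hs r (Finset.mem_insert_of_mem hr)
    have h3 := hs q (Finset.mem_insert_self _ _)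
    rw [Finset.prod_insert hq, Finset.sum_insert hq, h2]
    refine ⟨by rw [Nat.mul_mod, h3, h1], ?_⟩
    rw [lg_pm (qch_two_pm h3) (qch_two_pm h1)]
    congr 1
    unfold qch
    rw [jacobiSym.mul_right' _ (by omega) (by omega)]
    push_cast
    rfl

theorem t_SW : S_SW := by
  classical
  intro Q P ϖ h h8
  have hd : Disjoint ((Q ∪ P) ×ˢ ({false} : Finset Bool)) (P ×ˢ ({true} : Finset Bool)) := by
    rw [Finset.disjoint_left]
    intro i hi hj
    rw [Finset.mem_product, Finset.mem_singleton] at hi hj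
    rw [hi.2] at hj
    exact absurd hj.2 (by simp)
  have e0 : ∑ i ∈ ix Q P, lg (sy (pfx Q ϖ i) (1 - aR)) = ∑ q ∈ Q, lg (sy (pfx Q ϖ (q, false)) (1 - aR)) +
      ∑ p ∈ P, (lg (sy (pfx Q ϖ (p, false)) (1 - aR)) + lg (sy (pfx Q ϖ (p, true)) (1 - aR))) := by
    unfold ix
    rw [Finset.sum_union hd, Finset.sum_product, Finset.sum_product]
    simp only [Finset.sum_singleton]
    rw [Finset.sum_union h.dis, Finset.sum_add_distrib, add_assoc]
  have e1 : ∀ q ∈ Q, lg (sy (pfx Q ϖ (q, false)) (1 - aR)) = lg (qch q 2) := by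
    intro q hq
    have hm : (q, false) ∈ ix Q P := mem_ix.2 (Or.inl ⟨hq, rfl⟩)
    rcases h.kind hm with h1 | h1
    · rw [sy_congr h1.2.sp, sy_inertX h1.2.inp, nR_one_sub]
    · exact absurd h1.1 (h.disj hq)
  have e2 : ∀ p ∈ P, lg (sy (pfx Q ϖ (p, false)) (1 - aR)) + lg (sy (pfx Q ϖ (p, true)) (1 - aR)) =
      lg (qch p 2) := by
    intro p hp
    have hQ : p ∉ Q := fun h3 => h.disj h3 hp
    have hd1 := h.d1 hp
    have f1 : pfx Q ϖ (p, false) = ϖ p := by
      unfold pfx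
      rw [if_neg hQ]
      simp
    have f2 : pfx Q ϖ (p, true) = sg p * cj (ϖ p) := by
      unfold pfx
      rw [if_neg hQ]
      simp
    have f3 := sy_norm hd1.pr hd1.nR (1 - aR)
    rw [nR_one_sub] at f3
    have f4 : qch p 2 ≠ 0 := by
      rcases qch_two_pm hd1.odd with h1 | h1 <;> rw [h1] <;> norm_num
    have f5 : ∀ x : RR, sy x (1 - aR) ≠ 0 → sy x (1 - aR) = 1 ∨ sy x (1 - aR) = -1 := by
      intro x hx
      apply sy_sgn
      intro h1
      apply hx
      unfold sy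
      rw [if_pos h1]
    rw [f1, f2, sy_congr (sp_sg p (cj (ϖ p))), lg_pm, f3]
    · apply f5
      intro h1
      rw [h1, zero_mul] at f3
      exact f4 f3.symm
    · apply f5
      intro h1
      rw [h1, mul_zero] at f3
      exact f4 f3.symm
  rw [e0, Finset.sum_congr rfl e1, Finset.sum_congr rfl e2, ← Finset.sum_union h.dis]
  have hodd : ∀ q ∈ Q ∪ P, q % 2 = 1 := by
    intro q hq
    rcases Finset.mem_union.1 hq with hq | hq
    · exact (h.q q hq).odd
    · exact (h.p q hq).odd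
  rw [(sum_qch _ hodd).2]
  have e3 : qch (∏ q ∈ Q ∪ P, q) 2 = 1 := by
    unfold qch
    rw [jacobiSym.at_two (Nat.odd_iff.2 (by omega)), ZMod.χ₈_nat_eq_if_mod_eight,
      if_neg (by omega), if_pos (by omega)]
    norm_num
  rw [e3, lg_one]

end Pool.Agent.L0h91.PW
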