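import Pool.Agent.L0h74.PW.Stm

/-!
# Project PW, job TR: the two models of the ring `ℤ[ω]`
-/

set_option autoImplicit false
set_option linter.unusedSectionVars false

namespace Pool.Agent.L0h91.PW

open Pool.Agent.L0h74.PW
open Pool.Agent.R384 (OO om em em_apply qs qs_zero Sqm)
open Pool.Agent.Y698 (RR aR aR_sq aR_coe cX cY co co_uniq)
open Pool.Agent.Y698.SG (lg lg_one lg_neg_one sy)
open Pool.Agent.W192.HK (sp)

lemma em_inj : Function.Injective (em aR_sq) := by
  intro x y h
  rw [em_apply, em_apply] at h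
  have h1 := congrArg (Subtype.val : RR → ℂ) h
  push_cast at h1
  rw [aR_coe] at h1
  obtain ⟨h2, h3⟩ := co_uniq h1
  exact QuadraticAlgebra.ext h2 h3

lemma em_surj : Function.Surjective (em aR_sq) := by
  intro r
  refine ⟨⟨cX r, cY r⟩, ?_⟩
  rw [em_apply]
  apply Subtype.ext
  push_cast
  rw [aR_coe]
  exact (co r).symm

/-- the isomorphism -/
noncomputable def ph : OO ≃+* RR := RingEquiv.ofBijective (em aR_sq) ⟨em_inj, em_surj⟩

lemma ph_apply (x : OO) : ph x = em aR_sq x := rfl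

lemma ph_om : ph om = aR := by
  rw [ph_apply, em_apply]
  simp [om]

lemma mem_sp_ph (π x : OO) : ph x ∈ sp (ph π) ↔ π ∣ x := by
  rw [Ideal.mem_span_singleton]
  exact map_dvd_iff ph

theorem t_TR : S_TR := by
  classical
  refine ⟨ph, ph_om, fun π x h => ?_⟩
  have hx : ph x ∉ sp (ph π) := fun h1 => h ((mem_sp_ph π x).1 h1)
  have key : IsSquare (Ideal.Quotient.mk (sp (ph π)) (ph x)) ↔ Sqm π x := by
    constructor
    · rintro ⟨y, hy⟩
      obtain ⟨z, rfl⟩ := Ideal.Quotient.mk_surjective y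
      obtain ⟨t, rfl⟩ := ph.surjective z
      refine ⟨t, (mem_sp_ph π _).1 ?_⟩
      rw [← map_mul, Ideal.Quotient.eq] at hy
      rw [map_sub, map_pow, pow_two]
      exact hy
    · rintro ⟨y, hy⟩
      refine ⟨Ideal.Quotient.mk _ (ph y), ?_⟩
      rw [← map_mul, Ideal.Quotient.eq]
      have := (mem_sp_ph π _).2 hy
      rwa [map_sub, map_pow, pow_two] at this
  have h01 : ∀ a b : ZMod 2, (a = 0 ↔ b = 0) → a = b := by decide
  apply h01
  rw [qs_zero, ← key]
  unfold sy
  rw [if_neg hx]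
  by_cases h1 : IsSquare (Ideal.Quotient.mk (sp (ph π)) (ph x))
  · rw [if_pos h1, lg_one]
    simp [h1]
  · rw [if_neg h1, lg_neg_one]
    simp [h1]

end Pool.Agent.L0h91.PW
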